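import Pool.Agent.Work.MP_f36782_h4.Points
import Pool.Agent.Work.MP_f36782_h20.Main

set_option autoImplicit false

/-!
If all compositions of the partial maps `b⁻¹ ∘ a` are infinite then the Ramsey property of the
monotone sets implies the Ramsey property of all sets.
-/

namespace Pool.Agent.Work.RamseyAD

/-- All points can be sent outside of `A`. -/
theorem force_points {A : Set C} (hA : Tail A)
    (hdet : ∀ f : (ℕ → ℕ) → C, Continuous f → Determined (f ⁻¹' A))
    (hno : ∀ H, Inf H → ∃ x, Inf x ∧ Sub x H ∧ x ∉ A) (V : Set ℕ) (Z : ℕ → Set ℕ)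
    (hZ : ∀ c ∈ V, (Z c).Infinite)
    (hdis : ∀ c ∈ V, ∀ c' ∈ V, (Z c ∩ Z c').Finite ∨ AE (Z c) (Z c'))
    (h : ℕ → ℕ) (hh : StrictMono h) :
    ∃ y : ℕ → ℕ, StrictMono y ∧ ∀ c ∈ V, chi ((h ∘ y) '' Z c) ∉ A := by
  classical
  obtain ⟨own, N, hN, hown⟩ := disjointify V Z hZ hdis
  let D : ℕ → Set (Set ℕ) := fun k => if k ∈ N then {S | chi (∅ ∪ S) ∈ A} else ∅
  obtain ⟨y, hy, hyD⟩ := force_all D
    (by
      intro k f hf hm
      simp only [D]
      split_ifs with hk
      · exact det_chi hdet ∅ f hf hm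
      · right
        exact ⟨fun _ => 0, fun z _ => Set.notMem_empty _⟩)
    own
    (by
      intro k
      by_cases hk : k ∈ N
      · exact Or.inl (hN k hk)
      · right
        simp only [D]
        rw [if_neg hk])
    h hh
    (by
      intro k g hg
      have hhg : StrictMono (h ∘ g) := hh.comp hg
      obtain ⟨x, hx, hxs, hxA⟩ := hno (chi (Set.range (h ∘ g)))
        (chi_inf (Set.infinite_range_of_injective hhg.injective))
      obtain ⟨k', hk', hky⟩ := enum_sub (h ∘ g) {i | x i = true}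
        (fun i hi => (chi_eq_true _ i).1 (hxs i hi)) (infinite_of_Inf hx)
      refine ⟨k', hk', ?_⟩
      have h3 : h ∘ g ∘ k' = (h ∘ g) ∘ k' := rfl
      rw [h3, hky]
      simp only [D]
      split_ifs with hk
      · show ¬ chi (∅ ∪ {i | x i = true}) ∈ A
        rw [Set.empty_union, chi_self]
        exact hxA
      · exact Set.notMem_empty _)
  refine ⟨y, hy, fun c hc hcA => ?_⟩
  obtain ⟨k, hk, hke⟩ := hown c hc
  apply hyD k
  simp only [D]
  rw [if_pos hk]
  show chi (∅ ∪ (h ∘ y) '' {n | own n = k}) ∈ A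
  rw [Set.empty_union]
  exact ((hke.image (h ∘ y)).chi_iff hA).2 hcA

/-- the elements of `y` with index in `Z` -/
noncomputable def pick (Z : Set ℕ) (y : C) : C :=
  fun m => y m && open Classical in decide (cnt y m ∈ Z)

theorem continuous_of_agree (f : C → Bool) (N : ℕ)
    (h : ∀ x y : C, (∀ k, k < N → y k = x k) → f x = f y) : Continuous f := by
  have h1 : f = (fun w : Fin N → Bool => f fun k => if hk : k < N then w ⟨k, hk⟩ else false) ∘
      fun (x : C) (i : Fin N) => x i := by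
    funext x
    exact h _ _ fun k hk => by
      simp only [dif_pos hk]
  rw [h1]
  exact continuous_of_discreteTopology.comp (continuous_pi fun i => continuous_apply (i : ℕ))

theorem cnt_agree {x y : C} {n : ℕ} (h : ∀ k, k < n → y k = x k) : cnt y n = cnt x n := by
  unfold cnt
  rw [Nat.count_eq_card_filter_range, Nat.count_eq_card_filter_range]
  congr 1
  refine Finset.filter_congr fun k hk => ?_
  rw [Finset.mem_range] at hk
  rw [h k hk]

theorem continuous_pick (Z : Set ℕ) : Continuous (pick Z) := by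
  refine continuous_pi fun m => continuous_of_agree _ (m + 1) fun x y hxy => ?_
  unfold pick
  rw [hxy m (Nat.lt_succ_self m), cnt_agree fun k hk => hxy k (by omega)]

theorem enum_chi (x : ℕ → ℕ) (hx : StrictMono x) : enum (chi (Set.range x)) = x := by
  have h1 : enum (chi (Set.range x)) = Nat.nth (· ∈ Set.range x) := by
    funext j
    unfold enum
    congr 1
    funext k
    exact propext (chi_eq_true _ k)
  rw [h1, nth_range x hx]

theorem pick_chi (Z : Set ℕ) (x : ℕ → ℕ) (hx : StrictMono x) :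
    pick Z (chi (Set.range x)) = chi (x '' Z) := by
  classical
  have hinf : Inf (chi (Set.range x)) :=
    chi_inf (Set.infinite_range_of_injective hx.injective)
  have hcnt : ∀ i, cnt (chi (Set.range x)) (x i) = i := by
    intro i
    have := cnt_enum hinf i
    rwa [enum_chi x hx] at this
  funext m
  have h1 : pick Z (chi (Set.range x)) m = true ↔ chi (x '' Z) m = true := by
    rw [chi_eq_true]
    unfold pick
    rw [Bool.and_eq_true, chi_eq_true, decide_eq_true_iff]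
    constructor
    · rintro ⟨⟨i, rfl⟩, hi⟩
      rw [hcnt] at hi
      exact ⟨i, hi, rfl⟩
    · rintro ⟨i, hi, rfl⟩
      exact ⟨⟨i, rfl⟩, by rw [hcnt]; exact hi⟩
  exact Bool.eq_iff_iff.2 h1

theorem Closed.empty_mem {F : Set (Set C)} (hF : Closed F) {A : Set C} (hA : A ∈ F) : ∅ ∈ F := by
  have h1 : (⋃ n : ℕ, if n = 0 then A else Aᶜ) ∈ F := by
    refine hF.union _ fun n => ?_
    split_ifs
    · exact hA
    · exact hF.compl A hA
  have h2 : (⋃ n : ℕ, if n = 0 then A else Aᶜ) = Set.univ := by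
    rw [Set.eq_univ_iff_forall]
    intro x
    rw [Set.mem_iUnion]
    by_cases hx : x ∈ A
    · exact ⟨0, by rw [if_pos rfl]; exact hx⟩
    · exact ⟨1, by rw [if_neg (by decide)]; exact hx⟩
  have h3 := hF.compl _ h1
  rwa [h2, Set.compl_univ] at h3

/-- **Theorem, second part.** -/
theorem infinite_chain (R : Set ((ℕ → ℕ) × (ℕ → ℕ))) (hR : ∀ r ∈ R, StrictMono r.1 ∧ StrictMono r.2)
    (hRc : R.Countable)
    (hinf : ∀ l : List ((ℕ → ℕ) × (ℕ → ℕ)), (∀ r ∈ l, r ∈ R) → {n | ∃ m, Chain l n m}.Infinite)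
    (F : Set (Set C)) (hF : Closed F)
    (hmon : ∀ B ∈ F, (∀ r ∈ R, ∀ x : ℕ → ℕ, StrictMono x → chi (Set.range (x ∘ r.2)) ∈ B →
      chi (Set.range (x ∘ r.1)) ∈ B) → Ramsey B) {A : Set C} (hA : A ∈ F) : Ramsey A := by
  classical
  refine tail_reduction hF (fun A₀ hA₀ hT _ => ?_) hA
  by_contra hnR
  have hno : ∀ H, Inf H → ∃ x, Inf x ∧ Sub x H ∧ x ∉ A₀ := by
    intro H hH
    by_contra hcon
    push Not at hcon
    exact hnR ⟨H, hH, Or.inl hcon⟩
  have hno' : ∀ H, Inf H → ∃ x, Inf x ∧ Sub x H ∧ x ∉ A₀ᶜ := by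
    intro H hH
    by_contra hcon
    push Not at hcon
    exact hnR ⟨H, hH, Or.inr hcon⟩
  have hT' : Tail A₀ᶜ := fun x y hxy => not_congr (hT x y hxy)
  -- the words
  have hcount : {l : List ((ℕ → ℕ) × (ℕ → ℕ)) | ∀ r ∈ l, r ∈ R}.Countable := by
    rw [← Set.range_list_map_coe]
    have : Countable R := hRc
    exact Set.countable_range _
  obtain ⟨wd, hwdr⟩ := hcount.exists_eq_range ⟨[], fun r hr => absurd hr List.not_mem_nil⟩
  have hwdR : ∀ i, ∀ r ∈ wd i, r ∈ R := by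
    intro i
    have h1 : wd i ∈ {l : List ((ℕ → ℕ) × (ℕ → ℕ)) | ∀ r ∈ l, r ∈ R} := by
      rw [hwdr]; exact ⟨i, rfl⟩
    exact h1
  have hsurj : ∀ l : List ((ℕ → ℕ) × (ℕ → ℕ)), (∀ r ∈ l, r ∈ R) → ∃ i, wd i = l := by
    intro l hl
    have h1 : l ∈ {l : List ((ℕ → ℕ) × (ℕ → ℕ)) | ∀ r ∈ l, r ∈ R} := hl
    rw [hwdr] at h1
    exact h1
  have hwd : ∀ i, ∀ r ∈ wd i, StrictMono r.1 ∧ StrictMono r.2 := fun i r hr => hR r (hwdR i r hr)
  have hdom : ∀ a, Eqs (wd a) (wd a) = {n | ∃ m, Chain (wd a) n m} := by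
    intro a
    ext n
    exact ⟨fun ⟨m, h1, _⟩ => ⟨m, h1⟩, fun ⟨m, h1⟩ => ⟨m, h1, h1⟩⟩
  obtain ⟨D, hDinf, hDdom, hDdec, hDdis⟩ := points hwd (fun i => by
    rw [hdom]; exact hinf _ (hwdR i))
  obtain ⟨V, hV⟩ : ∃ V : Set ℕ, V = {c | (D (Nat.unpair c).2 \
    Eqs (wd (Nat.unpair c).1) (wd (Nat.unpair c).1)).Finite} := ⟨_, rfl⟩
  obtain ⟨Z, hZ⟩ : ∃ Z : ℕ → Set ℕ, Z = fun c => img (wd (Nat.unpair c).1) (D (Nat.unpair c).2) :=
    ⟨_, rfl⟩
  have hZinf : ∀ c ∈ V, (Z c).Infinite := by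
    intro c hc
    rw [hV] at hc
    rw [hZ]
    exact img_infinite hwd _ (hDinf _) hc
  have hZdis : ∀ c ∈ V, ∀ c' ∈ V, (Z c ∩ Z c').Finite ∨ AE (Z c) (Z c') := by
    intro c _ c' _
    rw [hZ]
    exact hDdis _ _ _ _
  -- the monotone set
  obtain ⟨B, hB⟩ : ∃ B : Set C, B = {y | ∃ a, ∀ c ∈ V, (Z c \ Eqs (wd a) (wd a)).Finite →
    pick (Z c) y ∈ A₀} := ⟨_, rfl⟩
  have hBF : B ∈ F := by
    have h1 : B = ⋃ a : ℕ, (⋃ c : ℕ, if c ∈ V ∧ (Z c \ Eqs (wd a) (wd a)).Finite then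
        pick (Z c) ⁻¹' A₀ᶜ else ∅)ᶜ := by
      rw [hB]
      ext y
      simp only [Set.mem_iUnion, Set.mem_compl_iff, Set.mem_ofPred_eq, not_exists]
      refine exists_congr fun a => forall_congr' fun c => ?_
      split_ifs with h
      · simp only [Set.mem_preimage, Set.mem_compl_iff, not_not]
        exact ⟨fun h' => h' h.1 h.2, fun h' _ _ => h'⟩
      · exact ⟨fun _ => Set.notMem_empty _, fun _ h1 h2 => absurd ⟨h1, h2⟩ h⟩
    rw [h1]
    refine hF.union _ fun a => hF.compl _ (hF.union _ fun c => ?_)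
    split_ifs
    · exact hF.preimage _ (hF.compl _ hA₀) _ (continuous_pick _)
    · exact hF.empty_mem hA₀
  have hBmon : ∀ r ∈ R, ∀ x : ℕ → ℕ, StrictMono x → chi (Set.range (x ∘ r.2)) ∈ B →
      chi (Set.range (x ∘ r.1)) ∈ B := by
    intro r hr x hx hxB
    rw [hB] at hxB ⊢
    obtain ⟨a, ha⟩ := hxB
    obtain ⟨hr1, hr2⟩ := hR r hr
    obtain ⟨a1, ha1⟩ := hsurj (r :: wd a) (by
      intro r' hr'
      rcases List.mem_cons.1 hr' with rfl | h
      · exact hr
      · exact hwdR a r' h)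
    refine ⟨a1, fun c hc hfin => ?_⟩
    have hcV := hc
    rw [hV] at hc
    obtain ⟨a'', ha''⟩ := hsurj (wd (Nat.unpair c).1 ++ [r]) (by
      intro r' hr'
      rcases List.mem_append.1 hr' with h | h
      · exact hwdR _ r' h
      · rw [List.mem_singleton.1 h]; exact hr)
    have hchain : ∀ n m, Chain (wd a'') n m ↔ ∃ k, Chain (wd (Nat.unpair c).1) n k ∧
        r.1 k = r.2 m := by
      intro n m
      rw [ha'', chain_append]
      refine exists_congr fun k => and_congr_right fun _ => ?_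
      rw [chain_cons]
      constructor
      · rintro ⟨n', h1, h2⟩
        rw [← (chain_nil n' m).1 h2]
        exact h1
      · intro h1
        exact ⟨m, h1, rfl⟩
    have hEq1 : ∀ k, k ∈ Eqs (wd a1) (wd a1) ↔ ∃ n', r.1 k = r.2 n' ∧ n' ∈ Eqs (wd a) (wd a) := by
      intro k
      rw [hdom, hdom, ha1]
      constructor
      · rintro ⟨m, n', h1, h2⟩
        exact ⟨n', h1, m, h2⟩
      · rintro ⟨n', h1, m, h2⟩
        exact ⟨m, n', h1, h2⟩
    have hZc : ∀ k, k ∈ Z c ↔ ∃ n ∈ D (Nat.unpair c).2, Chain (wd (Nat.unpair c).1) n k := by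
      intro k
      rw [hZ]
      rfl
    have hZc' : ∀ m, m ∈ Z (Nat.pair a'' (Nat.unpair c).2) ↔ ∃ k ∈ Z c, r.1 k = r.2 m := by
      intro m
      have h1 : Z (Nat.pair a'' (Nat.unpair c).2) = img (wd a'') (D (Nat.unpair c).2) := by
        rw [hZ]
        simp only [Nat.unpair_pair]
      rw [h1]
      constructor
      · rintro ⟨n, hn, hnm⟩
        obtain ⟨k, hk1, hk2⟩ := (hchain n m).1 hnm
        exact ⟨k, (hZc k).2 ⟨n, hn, hk1⟩, hk2⟩
      · rintro ⟨k, hk1, hk2⟩
        obtain ⟨n, hn, hnk⟩ := (hZc k).1 hk1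
        exact ⟨n, hn, (hchain n m).2 ⟨k, hnk, hk2⟩⟩
    have hcV' : Nat.pair a'' (Nat.unpair c).2 ∈ V := by
      rw [hV]
      show (D (Nat.unpair (Nat.pair a'' (Nat.unpair c).2)).2 \
        Eqs (wd (Nat.unpair (Nat.pair a'' (Nat.unpair c).2)).1)
          (wd (Nat.unpair (Nat.pair a'' (Nat.unpair c).2)).1)).Finite
      rw [Nat.unpair_pair]
      refine (hDdec (Nat.unpair c).2 a'').resolve_right fun hcon => ?_
      apply hZinf c hcV
      have h1 : Z c ⊆ (Z c \ Eqs (wd a1) (wd a1)) ∪ img (wd (Nat.unpair c).1)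
          (D (Nat.unpair c).2 ∩ Eqs (wd a'') (wd a'')) := by
        intro k hk
        by_cases h2 : k ∈ Eqs (wd a1) (wd a1)
        · right
          obtain ⟨n, hn, hnk⟩ := (hZc k).1 hk
          obtain ⟨n', h3, -⟩ := (hEq1 k).1 h2
          refine ⟨n, ⟨hn, ?_⟩, hnk⟩
          rw [hdom]
          exact ⟨n', (hchain n n').2 ⟨k, hnk, h3⟩⟩
        · exact Or.inl ⟨hk, h2⟩
      exact (hfin.union (img_finite hwd _ hcon)).subset h1
    have hfin' : (Z (Nat.pair a'' (Nat.unpair c).2) \ Eqs (wd a) (wd a)).Finite := by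
      refine ((hfin.image r.1).preimage hr2.injective.injOn).subset ?_
      rintro m ⟨hm, hm'⟩
      obtain ⟨k, hk1, hk2⟩ := (hZc' m).1 hm
      refine ⟨k, ⟨hk1, fun hk3 => ?_⟩, hk2⟩
      obtain ⟨n', h1, h2⟩ := (hEq1 k).1 hk3
      rw [hr2.injective (h1.symm.trans hk2)] at h2
      exact hm' h2
    have h1 := ha _ hcV' hfin'
    rw [pick_chi _ _ (hx.comp hr2)] at h1
    rw [pick_chi _ _ (hx.comp hr1)]
    have hAE : AE (r.2 '' Z (Nat.pair a'' (Nat.unpair c).2)) (r.1 '' Z c) := by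
      constructor
      · refine Set.finite_empty.subset ?_
        rintro _ ⟨⟨m, hm, rfl⟩, hm'⟩
        obtain ⟨k, hk1, hk2⟩ := (hZc' m).1 hm
        exact hm' ⟨k, hk1, hk2⟩
      · refine (hfin.image r.1).subset ?_
        rintro _ ⟨⟨k, hk, rfl⟩, hk'⟩
        refine ⟨k, ⟨hk, fun hk3 => hk' ?_⟩, rfl⟩
        obtain ⟨n', h2, -⟩ := (hEq1 k).1 hk3
        exact ⟨n', (hZc' n').2 ⟨k, hk, h2⟩, h2.symm⟩
    have hAE2 := hAE.image x
    rw [← Set.image_comp, ← Set.image_comp] at hAE2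
    exact (hAE2.chi_iff hT).1 h1
  -- the contradiction
  obtain ⟨H, hH, hHB⟩ := hmon B hBF hBmon
  have hsub : ∀ y : ℕ → ℕ, Sub (chi (Set.range (enum H ∘ y))) H := by
    intro y k hk
    obtain ⟨i, rfl⟩ := (chi_eq_true _ k).1 hk
    exact enum_mem hH _
  rcases hHB with h | h
  · obtain ⟨y, hy, hyZ⟩ := force_points hT (hF.det _ hA₀) hno V Z hZinf hZdis (enum H)
      (enum_strictMono hH)
    have hx : StrictMono (enum H ∘ y) := (enum_strictMono hH).comp hy
    have h1 := h _ (chi_inf (Set.infinite_range_of_injective hx.injective)) (hsub y)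
    rw [hB] at h1
    obtain ⟨a, ha⟩ := h1
    obtain ⟨a0, ha0⟩ := hsurj [] (fun r hr => absurd hr List.not_mem_nil)
    have hu : Eqs (wd a0) (wd a0) = Set.univ := by
      rw [hdom, ha0, Set.eq_univ_iff_forall]
      exact fun n => ⟨n, rfl⟩
    have hc : Nat.pair a0 a ∈ V := by
      rw [hV]
      show (D (Nat.unpair (Nat.pair a0 a)).2 \ Eqs (wd (Nat.unpair (Nat.pair a0 a)).1)
        (wd (Nat.unpair (Nat.pair a0 a)).1)).Finite
      rw [Nat.unpair_pair]
      show (D a \ Eqs (wd a0) (wd a0)).Finite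
      rw [hu, Set.sdiff_univ]
      exact Set.finite_empty
    have hZa : Z (Nat.pair a0 a) = D a := by
      rw [hZ]
      show img (wd (Nat.unpair (Nat.pair a0 a)).1) (D (Nat.unpair (Nat.pair a0 a)).2) = D a
      rw [Nat.unpair_pair]
      show img (wd a0) (D a) = D a
      rw [ha0]
      ext m
      constructor
      · rintro ⟨n, hn, hnm⟩
        rw [← (chain_nil n m).1 hnm]
        exact hn
      · intro hm
        exact ⟨m, hm, rfl⟩
    have h2 := ha _ hc (by
      rw [hZa]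
      refine Set.finite_empty.subset ?_
      rintro n ⟨hn, hn'⟩
      exact hn' (hDdom a hn))
    rw [pick_chi _ _ hx] at h2
    exact hyZ _ hc h2
  · obtain ⟨y, hy, hyZ⟩ := force_points hT' (hF.det _ (hF.compl _ hA₀)) hno' V Z hZinf hZdis
      (enum H) (enum_strictMono hH)
    have hx : StrictMono (enum H ∘ y) := (enum_strictMono hH).comp hy
    refine h _ (chi_inf (Set.infinite_range_of_injective hx.injective)) (hsub y) ?_
    rw [hB]
    refine ⟨0, fun c hc _ => ?_⟩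
    rw [pick_chi _ _ hx]
    exact not_not.1 (hyZ c hc)

end Pool.Agent.Work.RamseyAD
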