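import Pool.Agent.Work.MP_f36782_h4.Forcing
import Pool.Agent.Work.MP_f36782_h20.Main

set_option autoImplicit false

/-!
Almost disjoint patterns which a set does not separate.
-/

namespace Pool.Agent.Work.RamseyAD

theorem Acc.sub {O : Set C} {n : ℕ} {u X Y : C} (h : Acc O n u X) (hY : Sub Y X) :
    Acc O n u Y := h.almost ⟨0, fun k _ hk => hY k hk⟩

theorem Rej.sub {O : Set C} {n : ℕ} {u X Y : C} (h : Rej O n u X) (hY : Sub Y X) :
    Rej O n u Y := fun Z hZ hZY => h Z hZ (hZY.trans hY)

theorem decided (O : Set C) (H : C) (hH : Inf H) :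
    ∃ H1, Inf H1 ∧ Sub H1 H ∧ ∀ n u, Acc O n u H1 ∨ Rej O n u H1 := by
  classical
  obtain ⟨e, he⟩ := exists_surjective_nat (ℕ × Finset ℕ)
  obtain ⟨H1, hH1I, hH1H, hH1⟩ := diag
    (fun i K => Acc O (e i).1 (ind (e i).2) K ∨ Rej O (e i).1 (ind (e i).2) K)
    (by
      intro i H hH
      by_cases h : ∃ Y, Inf Y ∧ Sub Y H ∧ Acc O (e i).1 (ind (e i).2) Y
      · obtain ⟨Y, hY, hYH, hacc⟩ := h
        exact ⟨Y, hY, hYH, Or.inl hacc⟩
      · push Not at h
        exact ⟨H, hH, Sub.refl _, Or.inr h⟩)
    (by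
      intro i K K' hK hK' hKK'
      rcases hK with hK | hK
      · exact Or.inl (hK.almost hKK')
      · right
        intro Y hY hYK' hacc
        obtain ⟨M, hM⟩ := hKK'
        refine hK (ovr M zero Y) (hY.sub_ovr _ _) ?_ (hacc.almost ⟨0, ?_⟩)
        · intro k hk
          unfold ovr at hk
          split_ifs at hk with hlt
          · simp [zero] at hk
          · exact hM k (by omega) (hYK' k hk)
        · intro k _ hk
          unfold ovr at hk
          split_ifs at hk with hlt
          · simp [zero] at hk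
          · exact hk)
    H hH
  refine ⟨H1, hH1I, hH1H, fun n u => ?_⟩
  obtain ⟨i, hi⟩ := he (n, low n u)
  rcases hH1 i with h | h
  · left
    rw [hi] at h
    obtain ⟨N, hN, h⟩ := h
    refine ⟨N, hN, ?_⟩
    rw [← ovr_zero_congr (u := ind (low n u)) (fun k hk => ind_low u hk)]
    exact h
  · right
    rw [hi] at h
    exact h.congr fun k hk => ind_low u hk

theorem cnt_succ_true {x : C} {k : ℕ} (h : x k = true) : cnt x (k + 1) = cnt x k + 1 := by
  unfold cnt
  rw [Nat.count_succ, if_pos h]

theorem cnt_congr {x y : C} {n : ℕ} (h : ∀ k, k < n → y k = x k) : cnt y n = cnt x n := by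
  unfold cnt
  rw [Nat.count_eq_card_filter_range, Nat.count_eq_card_filter_range]
  congr 1
  refine Finset.filter_congr fun k hk => ?_
  rw [Finset.mem_range] at hk
  rw [h k hk]

theorem cnt_gap {x : C} {n n' k : ℕ} (h : cnt x n = cnt x n') (hk : n' ≤ k) (hk' : k < n) :
    x k = false := by
  by_contra hx
  rw [Bool.not_eq_false] at hx
  have h1 := cnt_succ_true hx
  have h2 := cnt_mono x hk
  have h3 : cnt x (k + 1) ≤ cnt x n := cnt_mono x hk'
  omega

theorem ovr_zero_cnt {x : C} {n n' : ℕ} (h : cnt x n = cnt x n') :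
    ovr n x zero = ovr n' x zero := by
  funext k
  unfold ovr
  by_cases h1 : k < n <;> by_cases h2 : k < n'
  · rw [if_pos h1, if_pos h2]
  · rw [if_pos h1, if_neg h2, cnt_gap h (not_lt.1 h2) h1]
    rfl
  · rw [if_neg h1, if_pos h2, cnt_gap h.symm (not_lt.1 h1) h2]
    rfl
  · rw [if_neg h1, if_neg h2]

/-- Below some infinite set all stems with `j` elements are rejected. -/
theorem stems (O : Set C) (H : C) (hH : Inf H) (hdec : ∀ n u, Acc O n u H ∨ Rej O n u H)
    (hno : ∀ K, Inf K → Sub K H → ∃ x, Inf x ∧ Sub x K ∧ x ∉ O) (j : ℕ) :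
    ∃ K, Inf K ∧ Sub K H ∧ ∀ x, Inf x → Sub x K → ∀ n, cnt x n = j → Rej O n x H := by
  classical
  obtain ⟨K, hKI, hKH, hK⟩ := openRamsey {x | ∃ n, cnt x n = j ∧ Acc O n x H}
    (by
      rintro x ⟨n, hn, hacc⟩
      refine ⟨n, fun y hy => ⟨n, by rw [cnt_congr hy, hn], ?_⟩⟩
      obtain ⟨N, hN, h⟩ := hacc
      refine ⟨N, hN, ?_⟩
      rw [ovr_zero_congr hy]
      exact h) H hH
  rcases hK with hK | hK
  · exfalso
    have hex : ∀ S : Finset ℕ, ∃ N, (∃ N', ∀ y, Inf y → Sub y H → ovr N' (ind S) y ∈ O) →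
        ∀ y, Inf y → Sub y H → ovr N (ind S) y ∈ O := by
      intro S
      by_cases h : ∃ N', ∀ y, Inf y → Sub y H → ovr N' (ind S) y ∈ O
      · obtain ⟨N, hN⟩ := h
        exact ⟨N, fun _ => hN⟩
      · exact ⟨0, fun h' => absurd h' h⟩
    choose M hM using hex
    obtain ⟨K', hK'I, hK'K, hK'N⟩ := sparse (ovr (M ∅) zero K) (hKI.sub_ovr _ _)
      (fun k => (Finset.range (k + 1)).powerset.sup fun S => M S)
    have hKH' : ∀ k, K' k = true → M ∅ ≤ k ∧ K k = true := by
      intro k hk
      have := hK'K k hk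
      unfold ovr at this
      split_ifs at this with hlt
      · simp [zero] at this
      · exact ⟨by omega, this⟩
    obtain ⟨x, hx, hxK, hxO⟩ := hno K' hK'I (fun k hk => hKH k (hKH' k hk).2)
    apply hxO
    obtain ⟨n', hn', N', hN', hacc⟩ := hK x hx fun k hk => (hKH' k (hxK k hk)).2
    have hn : cnt x (enum x j) = j := cnt_enum hx j
    have hstem : ovr n' x zero = ind (low (enum x j) x) := by
      rw [ovr_zero_cnt (show cnt x n' = cnt x (enum x j) by rw [hn', hn])]
      funext k
      unfold ovr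
      by_cases hk : k < enum x j
      · rw [if_pos hk, ind_low x hk]
      · rw [if_neg hk]
        simp [ind, low, zero, hk]
    rw [hstem] at hacc
    have h1 := hM (low (enum x j) x) ⟨N', hacc⟩ x hx
      (fun k hk => hKH k (hKH' k (hxK k hk)).2)
    have h2 : M (low (enum x j) x) ≤ enum x j := by
      have hxe := enum_mem hx j
      rcases Nat.eq_zero_or_pos j with h0 | h0
      · have h3 : low (enum x j) x = ∅ := by
          rw [Finset.eq_empty_iff_forall_notMem]
          intro k hk
          unfold low at hk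
          rw [Finset.mem_filter, Finset.mem_range] at hk
          have h4 := cnt_succ_true hk.2
          have h5 := cnt_mono x (show k + 1 ≤ enum x j by omega)
          omega
        rw [h3]
        exact (hKH' _ (hxK _ hxe)).1
      · have hlt : enum x (j - 1) < enum x j := enum_strictMono hx (by omega)
        refine le_trans ?_ (hK'N (enum x (j - 1)) (enum x j) (hxK _ (enum_mem hx _))
          (hxK _ hxe) hlt)
        refine Finset.le_sup (f := fun S => M S) ?_
        rw [Finset.mem_powerset]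
        intro k hk
        unfold low at hk
        rw [Finset.mem_filter, Finset.mem_range] at hk
        rw [Finset.mem_range]
        by_contra hcon
        have h4 : cnt x (enum x (j - 1) + 1) = j - 1 + 1 := by
          rw [cnt_succ_true (enum_mem hx _), cnt_enum hx]
        have h5 := cnt_mono x (show enum x (j - 1) + 1 ≤ k by omega)
        have h6 := cnt_succ_true hk.2
        have h7 := cnt_mono x (show k + 1 ≤ enum x j by omega)
        omega
    have h3 : ovr (M (low (enum x j) x)) (ind (low (enum x j) x)) x = x := by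
      funext k
      unfold ovr
      split_ifs with hk
      · exact ind_low x (by omega)
      · rfl
    rwa [h3] at h1
  · refine ⟨K, hKI, hKH, fun x hx hxK n hn => (hdec n x).resolve_left fun hacc => ?_⟩
    exact hK x hx hxK ⟨n, hn, hacc⟩

theorem count_stem (e r : ℕ → ℕ) (he : StrictMono e) (hr : StrictMono r) (L n₀ : ℕ)
    (h1 : ∀ n, r n < L ↔ n < n₀) (x : C)
    (hx : ∀ k, k < e L → (x k = true ↔ k ∈ e '' (Set.range r ∩ Set.Iio L))) :
    cnt x (e L) = n₀ := by
  unfold cnt
  rw [Nat.count_eq_card_filter_range]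
  have h2 : (Finset.range (e L)).filter (fun k => x k = true) =
      (Finset.range n₀).image fun n => e (r n) := by
    ext k
    rw [Finset.mem_filter, Finset.mem_range, Finset.mem_image]
    constructor
    · rintro ⟨hk, hxk⟩
      obtain ⟨i, ⟨⟨n, rfl⟩, hi⟩, hik⟩ := (hx k hk).1 hxk
      exact ⟨n, Finset.mem_range.2 ((h1 n).1 hi), hik⟩
    · rintro ⟨n, hn, rfl⟩
      rw [Finset.mem_range] at hn
      have h3 : r n < L := (h1 n).2 hn
      exact ⟨he h3, (hx _ (he h3)).2 ⟨r n, ⟨⟨n, rfl⟩, h3⟩, rfl⟩⟩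
  have h3 : Function.Injective fun n => e (r n) := (he.comp hr).injective
  rw [h2, Finset.card_image_of_injective _ h3, Finset.card_range]

/-- The player who wants to leave `A` wins above every rejected stem. -/
theorem leave {A : Set C} {K : C} (hK : Inf K) (r : ℕ → ℕ) (hr : StrictMono r) (L n₀ : ℕ)
    (h1 : ∀ n, r n < L ↔ n < n₀)
    (hrej : ∀ x, Inf x → Sub x K → ∀ n, cnt x n = n₀ → Rej A n x K)
    (g : ℕ → ℕ) (hg : StrictMono g) :
    ∃ k : ℕ → ℕ, StrictMono k ∧
      chi (enum K '' (Set.range r ∩ Set.Iio L) ∪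
        Set.range ((fun i => enum K (L + i)) ∘ g ∘ k)) ∉ A := by
  classical
  have he : StrictMono (enum K) := enum_strictMono hK
  obtain ⟨h, hh⟩ : ∃ h : ℕ → ℕ, h = fun i => enum K (L + i) := ⟨_, rfl⟩
  obtain ⟨s, hs⟩ : ∃ s : Set ℕ, s = enum K '' (Set.range r ∩ Set.Iio L) := ⟨_, rfl⟩
  rw [← hh, ← hs]
  have hhm : StrictMono h := by
    rw [hh]
    exact fun i j hij => he (by omega)
  have hhg : StrictMono (h ∘ g) := hhm.comp hg
  have hge : ∀ i, enum K L ≤ (h ∘ g) i := by
    intro i
    rw [hh]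
    exact he.monotone (by omega)
  have hslt : ∀ k ∈ s, k < enum K L := by
    rw [hs]
    rintro _ ⟨i, hi, rfl⟩
    exact he hi.2
  have hsK : ∀ k ∈ s, K k = true := by
    rw [hs]
    rintro _ ⟨i, -, rfl⟩
    exact enum_mem hK i
  have hinf : (Set.range (h ∘ g)).Infinite := Set.infinite_range_of_injective hhg.injective
  have hx0 : ∀ k, k < enum K L → (chi (s ∪ Set.range (h ∘ g)) k = true ↔ k ∈ s) := by
    intro k hk
    rw [chi_eq_true]
    constructor
    · rintro (h2 | ⟨i, rfl⟩)
      · exact h2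
      · exact absurd (hge i) (not_le.2 hk)
    · exact Or.inl
  have hR := hrej (chi (s ∪ Set.range (h ∘ g))) (chi_inf (hinf.mono Set.subset_union_right))
    (by
      intro k hk
      rw [chi_eq_true] at hk
      rcases hk with hk | ⟨i, rfl⟩
      · exact hsK k hk
      · rw [hh]; exact enum_mem hK _) (enum K L)
    (count_stem (enum K) r he hr L n₀ h1 _ (by rw [← hs]; exact hx0))
  have hR2 := hR (chi (Set.range (h ∘ g))) (chi_inf hinf) (by
    intro k hk
    rw [chi_eq_true] at hk
    obtain ⟨i, rfl⟩ := hk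
    rw [hh]; exact enum_mem hK _)
  have hR3 : ∃ y, Inf y ∧ Sub y (chi (Set.range (h ∘ g))) ∧
      ovr (enum K L) (ovr (enum K L) (chi (s ∪ Set.range (h ∘ g))) zero) y ∉ A := by
    by_contra hcon
    push Not at hcon
    exact hR2 ⟨enum K L, le_rfl, hcon⟩
  obtain ⟨y, hy, hyY, hyA⟩ := hR3
  obtain ⟨k, hk, hky⟩ := enum_sub (h ∘ g) {i | y i = true}
    (fun i hi => (chi_eq_true _ i).1 (hyY i hi)) (infinite_of_Inf hy)
  refine ⟨k, hk, ?_⟩
  have h3 : h ∘ g ∘ k = (h ∘ g) ∘ k := rfl
  rw [h3, hky]
  have h4 : ovr (enum K L) (ovr (enum K L) (chi (s ∪ Set.range (h ∘ g))) zero) y =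
      chi (s ∪ {i | y i = true}) := by
    funext i
    unfold ovr
    by_cases hi : i < enum K L
    · rw [if_pos hi, if_pos hi]
      have h5 : i ∉ {i | y i = true} := by
        intro hyi
        obtain ⟨j, hj⟩ := (chi_eq_true _ i).1 (hyY i hyi)
        have := hge j
        omega
      by_cases h6 : i ∈ s
      · rw [(hx0 i hi).2 h6, (chi_eq_true _ i).2 (Or.inl h6)]
      · have h7 : ¬ chi (s ∪ Set.range (h ∘ g)) i = true := fun h8 => h6 ((hx0 i hi).1 h8)
        have h8 : ¬ chi (s ∪ {i | y i = true}) i = true := by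
          rw [chi_eq_true]
          rintro (h9 | h9)
          · exact h6 h9
          · exact h5 h9
        rw [Bool.not_eq_true] at h7 h8
        rw [h7, h8]
    · rw [if_neg hi]
      have h5 : i ∉ s := fun h6 => hi (hslt i h6)
      cases hyi : y i
      · have h8 : ¬ chi (s ∪ {i | y i = true}) i = true := by
          rw [chi_eq_true]
          rintro (h9 | h9)
          · exact h5 h9
          · have h10 : y i = true := h9
            rw [hyi] at h10
            exact absurd h10 (by decide)
        rw [Bool.not_eq_true] at h8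
        rw [h8]
      · exact ((chi_eq_true _ i).2 (Or.inr hyi)).symm
  rwa [h4] at hyA

end Pool.Agent.Work.RamseyAD
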