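import Mathlib
import Pool.Agent.Work.MP_f36782_h69.Games

set_option autoImplicit false

/-!
Chains of pairs of increasing functions, and the patterns which they produce.
-/

namespace Pool.Agent.Work.RamseyAD

/-- `Chain [(a 1, b 1), ..., (a k, b k)] n m`: there are `n = n 0, n 1, ..., n k = m` with
`a i (n (i - 1)) = b i (n i)` for `i = 1, ..., k`. -/
def Chain : List ((ℕ → ℕ) × (ℕ → ℕ)) → ℕ → ℕ → Prop
  | [], n, m => n = m
  | r :: l, n, m => ∃ n', r.1 n = r.2 n' ∧ Chain l n' m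

theorem chain_nil (n m : ℕ) : Chain [] n m ↔ n = m := Iff.rfl

theorem chain_cons (r : (ℕ → ℕ) × (ℕ → ℕ)) (l : List ((ℕ → ℕ) × (ℕ → ℕ))) (n m : ℕ) :
    Chain (r :: l) n m ↔ ∃ n', r.1 n = r.2 n' ∧ Chain l n' m := Iff.rfl

theorem chain_append (l l' : List ((ℕ → ℕ) × (ℕ → ℕ))) (n m : ℕ) :
    Chain (l ++ l') n m ↔ ∃ k, Chain l n k ∧ Chain l' k m := by
  induction l generalizing n with
  | nil =>
    rw [List.nil_append]
    constructor
    · intro h
      exact ⟨n, rfl, h⟩
    · rintro ⟨k, hk, h⟩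
      rw [(chain_nil n k).1 hk]
      exact h
  | cons r l ih =>
    rw [List.cons_append, chain_cons]
    constructor
    · rintro ⟨n', h1, h2⟩
      obtain ⟨k, h3, h4⟩ := (ih n').1 h2
      exact ⟨k, ⟨n', h1, h3⟩, h4⟩
    · rintro ⟨k, ⟨n', h1, h3⟩, h4⟩
      exact ⟨n', h1, (ih n').2 ⟨k, h3, h4⟩⟩

theorem chain_fun {l : List ((ℕ → ℕ) × (ℕ → ℕ))} (hl : ∀ r ∈ l, StrictMono r.1 ∧ StrictMono r.2)
    {n m m' : ℕ} (h : Chain l n m) (h' : Chain l n m') : m = m' := by
  induction l generalizing n with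
  | nil => exact ((chain_nil n m).1 h).symm.trans ((chain_nil n m').1 h')
  | cons r l ih =>
    obtain ⟨k, h1, h2⟩ := h
    obtain ⟨k', h1', h2'⟩ := h'
    have hk : k = k' := (hl r List.mem_cons_self).2.injective (h1.symm.trans h1')
    subst hk
    exact ih (fun r hr => hl r (List.mem_cons_of_mem _ hr)) h2 h2'

theorem chain_inj {l : List ((ℕ → ℕ) × (ℕ → ℕ))} (hl : ∀ r ∈ l, StrictMono r.1 ∧ StrictMono r.2)
    {n n' m : ℕ} (h : Chain l n m) (h' : Chain l n' m) : n = n' := by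
  induction l generalizing n n' with
  | nil => exact ((chain_nil n m).1 h).trans ((chain_nil n' m).1 h').symm
  | cons r l ih =>
    obtain ⟨k, h1, h2⟩ := h
    obtain ⟨k', h1', h2'⟩ := h'
    have hk : k = k' := ih (fun r hr => hl r (List.mem_cons_of_mem _ hr)) h2 h2'
    subst hk
    exact (hl r List.mem_cons_self).1.injective (h1.trans h1'.symm)

/-- chains of a sequence of pairs -/
theorem chain_seq (N : ℕ) (r : ℕ → (ℕ → ℕ) × (ℕ → ℕ)) (n : ℕ) :
    (∃ m, Chain ((List.range N).map r) n m) ↔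
      ∃ k : ℕ → ℕ, k 0 = n ∧ ∀ i < N, (r i).1 (k i) = (r i).2 (k (i + 1)) := by
  induction N generalizing r n with
  | zero => exact ⟨fun _ => ⟨fun _ => n, rfl, fun i hi => absurd hi (Nat.not_lt_zero i)⟩,
      fun _ => ⟨n, rfl⟩⟩
  | succ N ih =>
    rw [List.range_succ_eq_map, List.map_cons, List.map_map]
    constructor
    · rintro ⟨m, n', h1, h2⟩
      obtain ⟨k, hk0, hk⟩ := (ih (r ∘ Nat.succ) n').1 ⟨m, h2⟩
      refine ⟨fun i => Nat.casesOn i n k, rfl, fun i hi => ?_⟩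
      rcases i with _ | i
      · show (r 0).1 n = (r 0).2 (k 0)
        rw [hk0]
        exact h1
      · exact hk i (by omega)
    · rintro ⟨k, hk0, hk⟩
      obtain ⟨m, hm⟩ := (ih (r ∘ Nat.succ) (k 1)).2 ⟨fun i => k (i + 1), rfl, fun i hi =>
        hk (i + 1) (by omega)⟩
      refine ⟨m, k 1, ?_, hm⟩
      rw [← hk0]
      exact hk 0 (by omega)

theorem cum_succ (b : ℕ → ℕ) (n : ℕ) : cum b (n + 1) = cum b n + b (n + 1) + 1 := by
  unfold cum
  rw [Finset.sum_range_succ]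
  omega

theorem le_cum (b : ℕ → ℕ) (n : ℕ) : b n ≤ cum b n := by
  unfold cum
  omega

/-- Every sparse increasing sequence `cum b ∘ q` is of the form `c ∘ b`, where `c` takes outside
the range of `b` only values outside the range of `cum b`. -/
theorem factor (b q : ℕ → ℕ) (hb : StrictMono b) (hq : StrictMono q) :
    ∃ c : ℕ → ℕ, StrictMono c ∧ (∀ n, c (b n) = cum b (q n)) ∧
      ∀ i, (∀ n, b n ≠ i) → ∀ j, c i ≠ cum b j := by
  classical
  have hex : ∀ i, ∃ m, i ≤ b m := fun i => ⟨i, hb.le_apply⟩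
  let m : ℕ → ℕ := fun i => Nat.find (hex i)
  have hm : ∀ i, i ≤ b (m i) := fun i => Nat.find_spec (hex i)
  have hmin : ∀ i k, k < m i → b k < i := fun i k hk => not_le.1 (Nat.find_min (hex i) hk)
  have hle : ∀ i k, i ≤ b k → m i ≤ k := fun i k hk => Nat.find_min' (hex i) hk
  have hcm : StrictMono (cum b) := cum_strictMono b
  have hgap : ∀ k l, k < l → cum b k + b l < cum b l := by
    intro k l hkl
    obtain ⟨l, rfl⟩ : ∃ l', l = l' + 1 := ⟨l - 1, by omega⟩
    rw [cum_succ]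
    have := hcm.monotone (Nat.lt_succ_iff.1 hkl)
    omega
  have hbq : ∀ n, b n ≤ cum b (q n) := fun n =>
    (hb.monotone hq.le_apply).trans (le_cum b (q n))
  refine ⟨fun i => cum b (q (m i)) - (b (m i) - i), strictMono_nat_of_lt_succ fun i => ?_,
    fun n => ?_, fun i hi j hj => ?_⟩
  · have h1 := hm i
    have h2 := hm (i + 1)
    have h3 := hbq (m i)
    have h4 := hbq (m (i + 1))
    have h5 : m i ≤ m (i + 1) := hle i _ (by omega)
    rcases h5.eq_or_lt with h6 | h6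
    · rw [← h6] at h2 ⊢
      omega
    · have h7 := hmin (i + 1) (m i) h6
      have h8 := hgap (q (m i)) (q (m (i + 1))) (hq h6)
      have h9 : b (m (i + 1)) ≤ b (q (m (i + 1))) := hb.monotone hq.le_apply
      omega
  · have h1 : m (b n) = n := by
      refine le_antisymm (hle _ _ le_rfl) ?_
      by_contra hcon
      exact absurd (hm (b n)) (not_le.2 (hb (not_le.1 hcon)))
    dsimp only
    rw [h1]
    omega
  · dsimp only at hj
    have h1 := hm i
    have h2 : b (m i) ≠ i := hi _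
    have h3 := hbq (m i)
    have h4 : j < q (m i) := hcm.lt_iff_lt.1 (by omega)
    have h5 := hgap j (q (m i)) h4
    have h6 : b (m i) ≤ b (q (m i)) := hb.monotone hq.le_apply
    omega

/-- The patterns which belong to a chain. -/
theorem chain_patterns (P : (ℕ → ℕ) → Prop) (X : Set ℕ) (l : List ((ℕ → ℕ) × (ℕ → ℕ)))
    (hl : ∀ r ∈ l, StrictMono r.1 ∧ StrictMono r.2)
    (hP : ∀ r ∈ l, ∀ x : ℕ → ℕ, StrictMono x → (∀ n, x n ∈ X) → P (x ∘ r.2) → P (x ∘ r.1)) :
    ∃ p q : ℕ → ℕ, StrictMono p ∧ StrictMono q ∧ (∀ n k, q n = p k ↔ Chain l n k) ∧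
      ∀ x : ℕ → ℕ, StrictMono x → (∀ n, x n ∈ X) → P (x ∘ p) → P (x ∘ q) := by
  induction l with
  | nil => exact ⟨id, id, strictMono_id, strictMono_id, fun n k => Iff.rfl, fun x _ _ h => h⟩
  | cons r l ih =>
    obtain ⟨p, q, hp, hq, hpq, hPpq⟩ := ih (fun r hr => hl r (List.mem_cons_of_mem _ hr))
      (fun r hr => hP r (List.mem_cons_of_mem _ hr))
    obtain ⟨ha, hb⟩ := hl r List.mem_cons_self
    obtain ⟨c, hc, hcb, hcn⟩ := factor r.2 q hb hq
    have hcm : StrictMono (cum r.2) := cum_strictMono r.2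
    refine ⟨cum r.2 ∘ p, c ∘ r.1, hcm.comp hp, hc.comp ha, fun n k => ?_, fun x hx hxX hxp => ?_⟩
    · rw [chain_cons]
      constructor
      · intro h
        have h' : c (r.1 n) = cum r.2 (p k) := h
        by_cases hn : ∃ n', r.2 n' = r.1 n
        · obtain ⟨n', hn'⟩ := hn
          refine ⟨n', hn'.symm, (hpq n' k).1 ?_⟩
          rw [← hn', hcb] at h'
          exact hcm.injective h'
        · push Not at hn
          exact absurd h' (hcn _ hn _)
      · rintro ⟨n', h1, h2⟩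
        show c (r.1 n) = cum r.2 (p k)
        rw [h1, hcb, (hpq n' k).2 h2]
    · have h1 : P ((x ∘ cum r.2) ∘ q) := hPpq (x ∘ cum r.2) (hx.comp hcm) (fun n => hxX _) hxp
      have h2 : (x ∘ cum r.2) ∘ q = (x ∘ c) ∘ r.2 := by
        funext n
        show x (cum r.2 (q n)) = x (c (r.2 n))
        rw [hcb]
      rw [h2] at h1
      exact hP r List.mem_cons_self (x ∘ c) (hx.comp hc) (fun n => hxX _) h1

end Pool.Agent.Work.RamseyAD
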