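import Pool.Agent.Work.MP_f36782_h4.Chain
import Pool.Agent.Work.MP_f36782_h69.TailReduction
import Pool.Agent.Work.MP_f36782_h20.Bracket

set_option autoImplicit false

/-!
Simultaneous avoidance of sets at disjoint patterns, and the translation between sets of natural
numbers and points of Cantor space.
-/

namespace Pool.Agent.Work.RamseyAD

/-- the point of Cantor space which codes the set `S` -/
noncomputable def chi (S : Set ℕ) : C := fun k => open Classical in decide (k ∈ S)

theorem chi_eq_true (S : Set ℕ) (k : ℕ) : chi S k = true ↔ k ∈ S := by simp [chi]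

theorem chi_inf {S : Set ℕ} (h : S.Infinite) : Inf (chi S) := by
  intro n
  obtain ⟨k, hk, hn⟩ := h.exists_gt n
  exact ⟨k, hn.le, (chi_eq_true S k).2 hk⟩

theorem chi_self (x : C) : chi {k | x k = true} = x := by
  funext k
  have h := chi_eq_true {k | x k = true} k
  simp only [Set.mem_ofPred_eq] at h
  cases hx : x k
  · cases hc : chi {k | x k = true} k
    · rfl
    · rw [h.1 hc] at hx
      exact absurd hx (by decide)
  · exact h.2 hx

/-- tail sets do not distinguish sets which are almost equal -/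
theorem chi_tail {A : Set C} (hA : Tail A) {S S' : Set ℕ} (h1 : (S \ S').Finite)
    (h2 : (S' \ S).Finite) : chi S ∈ A ↔ chi S' ∈ A := by
  obtain ⟨N, hN⟩ := (h1.union h2).bddAbove
  refine hA _ _ ⟨N + 1, fun k hk => ?_⟩
  have h3 : k ∈ S ↔ k ∈ S' := by
    constructor
    · intro h
      by_contra h'
      have := hN (Or.inl ⟨h, h'⟩)
      omega
    · intro h
      by_contra h'
      have := hN (Or.inr ⟨h, h'⟩)
      omega
  exact decide_eq_decide.2 h3

/-- the range of an increasing sequence depends continuously on the sequence -/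
theorem continuous_chi_range (s : Set ℕ) (f : (ℕ → ℕ) → (ℕ → ℕ)) (hf : Continuous f)
    (hm : ∀ z, StrictMono (f z)) : Continuous fun z => chi (s ∪ Set.range (f z)) := by
  classical
  refine continuous_pi fun k => ?_
  have h1 : ∀ z, k ∈ Set.range (f z) ↔ ∃ i : Fin (k + 1), f z i = k := by
    intro z
    constructor
    · rintro ⟨i, hi⟩
      exact ⟨⟨i, by have := (hm z).le_apply (x := i); omega⟩, hi⟩
    · rintro ⟨i, hi⟩
      exact ⟨i, hi⟩
  have h2 : (fun z => chi (s ∪ Set.range (f z)) k) =
      (fun w : Fin (k + 1) → ℕ => decide (k ∈ s ∨ ∃ i, w i = k)) ∘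
        fun (z : ℕ → ℕ) (i : Fin (k + 1)) => f z i := by
    funext z
    unfold chi
    simp only [Function.comp_apply, Set.mem_union, h1]
  rw [h2]
  refine continuous_of_discreteTopology.comp (continuous_pi fun i => ?_)
  exact (continuous_apply (i : ℕ)).comp hf

/-- the games of `force` for sets of points of Cantor space -/
theorem det_chi {A : Set C} (hdet : ∀ f : (ℕ → ℕ) → C, Continuous f → Determined (f ⁻¹' A))
    (s : Set ℕ) (f : (ℕ → ℕ) → (ℕ → ℕ)) (hf : Continuous f) (hm : ∀ z, StrictMono (f z)) :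
    Determined {z | Set.range (f z) ∈ {S : Set ℕ | chi (s ∪ S) ∈ A}} :=
  hdet _ (continuous_chi_range s f hf hm)

/-- All sets `D i` can be avoided at the same time. -/
theorem force_all (D : ℕ → Set (Set ℕ))
    (hdet : ∀ i, ∀ f : (ℕ → ℕ) → (ℕ → ℕ), Continuous f → (∀ z, StrictMono (f z)) →
      Determined {z | Set.range (f z) ∈ D i})
    (own : ℕ → ℕ) (hown : ∀ i, {n | own n = i}.Infinite ∨ D i = ∅)
    (h : ℕ → ℕ) (hh : StrictMono h)
    (hD : ∀ i, ∀ g : ℕ → ℕ, StrictMono g → ∃ k : ℕ → ℕ, StrictMono k ∧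
      Set.range (h ∘ g ∘ k) ∉ D i) :
    ∃ x : ℕ → ℕ, StrictMono x ∧ ∀ i, (h ∘ x) '' {n | own n = i} ∉ D i := by
  classical
  have hT : ∀ i, ∃ τ : List ℕ → ℕ, ∀ z : ℕ → ℕ, (∀ n, z (2 * n + 1) = τ (hist z (2 * n + 1))) →
      (h ∘ outcome {n | own n = i} z) '' {n | own n = i} ∉ D i := by
    intro i
    rcases hown i with hi | hi
    · have ha : StrictMono (Nat.nth fun n => own n = i) := Nat.nth_strictMono hi
      have har : Set.range (Nat.nth fun n => own n = i) = {n | own n = i} :=
        Nat.range_nth_of_infinite hi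
      obtain ⟨τ, hτ⟩ := force (D i) (hdet i) _ ha h hh (hD i)
      refine ⟨τ, fun z hz => ?_⟩
      have h1 := hτ z hz
      rw [har] at h1
      rw [← har, ← Set.range_comp, har]
      exact h1
    · refine ⟨fun _ => 0, fun z _ => ?_⟩
      rw [hi]
      exact Set.notMem_empty _
  choose τ hτ using hT
  obtain ⟨w, hw⟩ := together (fun i _ => τ i) (fun _ _ => true) (fun i => {n | own n = i}) own
    (fun _ => 0) (fun i n => Iff.rfl) (fun i n _ => Nat.zero_le n)
  refine ⟨cum w, cum_strictMono w, fun i => ?_⟩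
  obtain ⟨z, hz1, hz2⟩ := hw i
  have h1 := hτ i z hz1
  rwa [hz2] at h1

end Pool.Agent.Work.RamseyAD
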