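import Pool.Agent.Work.MP_f36782_h4.Forcing

set_option autoImplicit false

/-!
Sets on which countably many partial injections are either almost equal or have almost disjoint
images.
-/

namespace Pool.Agent.Work.RamseyAD

/-- almost equality of sets -/
def AE (S S' : Set ℕ) : Prop := (S \ S').Finite ∧ (S' \ S).Finite

theorem AE.refl (S : Set ℕ) : AE S S := by
  unfold AE
  rw [Set.sdiff_self]
  exact ⟨Set.finite_empty, Set.finite_empty⟩

theorem AE.symm {S S' : Set ℕ} (h : AE S S') : AE S' S := ⟨h.2, h.1⟩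

theorem AE.trans {S S' S'' : Set ℕ} (h : AE S S') (h' : AE S' S'') : AE S S'' := by
  constructor
  · refine (h.1.union h'.1).subset fun n hn => ?_
    by_cases h1 : n ∈ S'
    · exact Or.inr ⟨h1, hn.2⟩
    · exact Or.inl ⟨hn.1, h1⟩
  · refine (h'.2.union h.2).subset fun n hn => ?_
    by_cases h1 : n ∈ S'
    · exact Or.inr ⟨h1, hn.2⟩
    · exact Or.inl ⟨hn.1, h1⟩

theorem AE.infinite {S S' : Set ℕ} (h : AE S S') (hS : S.Infinite) : S'.Infinite := by
  intro hfin
  apply hS
  refine (h.1.union hfin).subset fun n hn => ?_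
  by_cases h1 : n ∈ S'
  · exact Or.inr h1
  · exact Or.inl ⟨hn, h1⟩

theorem AE.image {S S' : Set ℕ} (h : AE S S') (f : ℕ → ℕ) : AE (f '' S) (f '' S') := by
  constructor
  · refine (h.1.image f).subset ?_
    rintro _ ⟨⟨n, hn, rfl⟩, hn'⟩
    exact ⟨n, ⟨hn, fun h1 => hn' ⟨n, h1, rfl⟩⟩, rfl⟩
  · refine (h.2.image f).subset ?_
    rintro _ ⟨⟨n, hn, rfl⟩, hn'⟩
    exact ⟨n, ⟨hn, fun h1 => hn' ⟨n, h1, rfl⟩⟩, rfl⟩

theorem AE.chi_iff {A : Set C} (hA : Tail A) {S S' : Set ℕ} (h : AE S S') :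
    chi S ∈ A ↔ chi S' ∈ A := chi_tail hA h.1 h.2

/-- Countably many sets can be decided. -/
theorem decide_sets (T : ℕ → Set ℕ) (S : Set ℕ) (hS : S.Infinite) :
    ∃ E, E ⊆ S ∧ E.Infinite ∧ ∀ j, (E \ T j).Finite ∨ (E ∩ T j).Finite := by
  classical
  obtain ⟨K, hKI, hKS, hK⟩ := diag
    (fun j K => ({k | K k = true} \ T j).Finite ∨ ({k | K k = true} ∩ T j).Finite)
    (by
      intro j H hH
      by_cases h : ({k | H k = true} ∩ T j).Finite
      · exact ⟨H, hH, Sub.refl _, Or.inr h⟩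
      · refine ⟨chi ({k | H k = true} ∩ T j), chi_inf h, fun k hk => ?_, Or.inl ?_⟩
        · exact ((chi_eq_true _ k).1 hk).1
        · have h1 : {k | chi ({k | H k = true} ∩ T j) k = true} \ T j = ∅ := by
            rw [Set.eq_empty_iff_forall_notMem]
            rintro k ⟨hk, hk'⟩
            exact hk' ((chi_eq_true _ k).1 hk).2
          rw [h1]
          exact Set.finite_empty)
    (by
      rintro j K K' hK hK' ⟨n, hn⟩
      rcases hK with h | h
      · left
        refine (h.union (Set.finite_Iio n)).subset ?_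
        rintro k ⟨hk, hk'⟩
        by_cases h1 : n ≤ k
        · exact Or.inl ⟨hn k h1 hk, hk'⟩
        · exact Or.inr (not_le.1 h1)
      · right
        refine (h.union (Set.finite_Iio n)).subset ?_
        rintro k ⟨hk, hk'⟩
        by_cases h1 : n ≤ k
        · exact Or.inl ⟨hn k h1 hk, hk'⟩
        · exact Or.inr (not_le.1 h1))
    (chi S) (chi_inf hS)
  exact ⟨{k | K k = true}, fun k hk => (chi_eq_true S k).1 (hKS k hk), infinite_of_Inf hKI, hK⟩

/-- the image of `D` under the partial map of the chain `l` -/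
def img (l : List ((ℕ → ℕ) × (ℕ → ℕ))) (D : Set ℕ) : Set ℕ := {m | ∃ n ∈ D, Chain l n m}

/-- the domain of equality of two chains -/
def Eqs (l l' : List ((ℕ → ℕ) × (ℕ → ℕ))) : Set ℕ := {n | ∃ m, Chain l n m ∧ Chain l' n m}

section

variable {wd : ℕ → List ((ℕ → ℕ) × (ℕ → ℕ))}
  (hwd : ∀ i, ∀ r ∈ wd i, StrictMono r.1 ∧ StrictMono r.2)

include hwd

theorem img_finite (a : ℕ) {D : Set ℕ} (hD : D.Finite) : (img (wd a) D).Finite := by
  have h1 : img (wd a) D = ⋃ n ∈ D, {m | Chain (wd a) n m} := by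
    ext m
    simp [img]
  rw [h1]
  refine hD.biUnion fun n _ => ?_
  exact Set.Subsingleton.finite fun m hm m' hm' => chain_fun (hwd a) hm hm'

theorem img_infinite (a : ℕ) {D : Set ℕ} (hD : D.Infinite)
    (h : (D \ Eqs (wd a) (wd a)).Finite) : (img (wd a) D).Infinite := by
  have h1 : (D ∩ Eqs (wd a) (wd a)).Infinite := by
    intro hfin
    apply hD
    refine (h.union hfin).subset fun n hn => ?_
    by_cases h2 : n ∈ Eqs (wd a) (wd a)
    · exact Or.inr ⟨hn, h2⟩
    · exact Or.inl ⟨hn, h2⟩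
  intro hfin
  apply h1
  have h2 : D ∩ Eqs (wd a) (wd a) ⊆ ⋃ m ∈ img (wd a) D, {n | Chain (wd a) n m} := by
    rintro n ⟨hn, m, hm, -⟩
    simp only [Set.mem_iUnion]
    exact ⟨m, ⟨n, hn, hm⟩, hm⟩
  refine (hfin.biUnion fun m _ => ?_).subset h2
  exact Set.Subsingleton.finite fun n hn n' hn' => chain_inj (hwd a) hn hn'

/-- the construction of the points -/
theorem exists_points (E : ℕ → Set ℕ) (hE : ∀ i, (E i).Infinite) :
    ∃ e : ℕ → ℕ, StrictMono e ∧ (∀ j, e j ∈ E (Nat.unpair j).1) ∧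
      ∀ j' j, j' < j → ∀ a b, a ≤ j → b ≤ j → ∀ m, Chain (wd a) (e j') m →
        ¬ Chain (wd b) (e j) m := by
  classical
  have step : ∀ (F : Finset ℕ) (j : ℕ), ∃ n, n ∈ E (Nat.unpair j).1 ∧ (∀ n' ∈ F, n' < n) ∧
      ∀ n' ∈ F, ∀ a b, a ≤ j → b ≤ j → ∀ m, Chain (wd a) n' m → ¬ Chain (wd b) n m := by
    intro F j
    have hbad : ({n | ∃ n' ∈ F, n ≤ n'} ∪ ⋃ n' ∈ F, ⋃ a ∈ Finset.range (j + 1),
        ⋃ b ∈ Finset.range (j + 1), {n | ∃ m, Chain (wd a) n' m ∧ Chain (wd b) n m}).Finite := by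
      refine Set.Finite.union ?_ ?_
      · refine (Set.finite_Iic (F.sup id)).subset ?_
        rintro n ⟨n', hn', hn⟩
        exact le_trans hn (Finset.le_sup (f := id) hn')
      · refine F.finite_toSet.biUnion fun n' _ => ?_
        refine (Finset.range (j + 1)).finite_toSet.biUnion fun a _ => ?_
        refine (Finset.range (j + 1)).finite_toSet.biUnion fun b _ => ?_
        refine Set.Subsingleton.finite ?_
        rintro n ⟨m, h1, h2⟩ k ⟨m', h3, h4⟩
        rw [← chain_fun (hwd a) h1 h3] at h4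
        exact chain_inj (hwd b) h2 h4
    obtain ⟨n, hn, hn'⟩ := ((hE (Nat.unpair j).1).sdiff hbad).nonempty
    refine ⟨n, hn, fun n' hn'F => ?_, fun n' hn'F a b ha hb m h1 h2 => ?_⟩
    · by_contra hcon
      exact hn' (Or.inl ⟨n', hn'F, not_lt.1 hcon⟩)
    · apply hn'
      right
      simp only [Set.mem_iUnion]
      exact ⟨n', hn'F, a, Finset.mem_range.2 (by omega), b, Finset.mem_range.2 (by omega),
        m, h1, h2⟩
  choose nx h1 h2 h3 using step
  let S : ℕ → Finset ℕ := fun j => Nat.rec ∅ (fun j F => insert (nx F j) F) j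
  have hS : ∀ j, S (j + 1) = insert (nx (S j) j) (S j) := fun _ => rfl
  have hmono : ∀ j' j, j' ≤ j → S j' ⊆ S j := by
    intro j' j hj
    induction j, hj using Nat.le_induction with
    | base => exact subset_rfl
    | succ j _ ih => exact ih.trans (by rw [hS]; exact Finset.subset_insert _ _)
  have hmem : ∀ j' j, j' < j → nx (S j') j' ∈ S j := fun j' j hj =>
    hmono (j' + 1) j hj (by rw [hS]; exact Finset.mem_insert_self _ _)
  refine ⟨fun j => nx (S j) j, fun j' j hj => h2 _ _ _ (hmem j' j hj), fun j => h1 _ _, ?_⟩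
  intro j' j hj a b ha hb m hm
  exact h3 (S j) j _ (hmem j' j hj) a b ha hb m hm

/-- **The points.** For every word `i` a set `D i` of points such that all images of all these
sets are almost equal or almost disjoint. -/
theorem points (hinf : ∀ i, (Eqs (wd i) (wd i)).Infinite) :
    ∃ D : ℕ → Set ℕ, (∀ i, (D i).Infinite) ∧ (∀ i, D i ⊆ Eqs (wd i) (wd i)) ∧
      (∀ i a, (D i \ Eqs (wd a) (wd a)).Finite ∨ (D i ∩ Eqs (wd a) (wd a)).Finite) ∧
      ∀ i i' a b, (img (wd a) (D i) ∩ img (wd b) (D i')).Finite ∨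
        AE (img (wd a) (D i)) (img (wd b) (D i')) := by
  classical
  have hE : ∀ i, ∃ E, E ⊆ Eqs (wd i) (wd i) ∧ E.Infinite ∧
      ∀ j, (E \ Eqs (wd (Nat.unpair j).1) (wd (Nat.unpair j).2)).Finite ∨
        (E ∩ Eqs (wd (Nat.unpair j).1) (wd (Nat.unpair j).2)).Finite :=
    fun i => decide_sets _ _ (hinf i)
  choose E hE1 hE2 hE3 using hE
  have hE4 : ∀ i a b, (E i \ Eqs (wd a) (wd b)).Finite ∨ (E i ∩ Eqs (wd a) (wd b)).Finite := by
    intro i a b
    have := hE3 i (Nat.pair a b)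
    rwa [Nat.unpair_pair] at this
  obtain ⟨e, he, heE, hesep⟩ := exists_points hwd E hE2
  obtain ⟨D, hD⟩ : ∃ D : ℕ → Set ℕ, D = fun i => {n | ∃ j, (Nat.unpair j).1 = i ∧ e j = n} :=
    ⟨_, rfl⟩
  have hDE : ∀ i, D i ⊆ E i := by
    intro i
    rw [hD]
    rintro _ ⟨j, rfl, rfl⟩
    exact heE j
  have hDinf : ∀ i, (D i).Infinite := by
    intro i
    refine Set.infinite_of_injective_forall_mem (f := fun k => e (Nat.pair i k)) ?_ ?_
    · intro k k' hk
      have h1 := he.injective hk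
      exact ((Nat.pair_eq_pair).1 h1).2
    · intro k
      rw [hD]
      exact ⟨Nat.pair i k, by rw [Nat.unpair_pair], rfl⟩
  -- the exceptional points
  have hexc : ∀ i i' a b m, m ∈ img (wd a) (D i) → m ∈ img (wd b) (D i') →
      m ∈ img (wd a) {n | ∃ j, j < max a b ∧ e j = n} ∨
        (i = i' ∧ ∃ n ∈ D i, n ∈ Eqs (wd a) (wd b) ∧ Chain (wd a) n m) := by
    rintro i i' a b m ⟨n, hn, hnm⟩ ⟨n', hn', hnm'⟩
    have hn0 := hn
    rw [hD] at hn hn'
    obtain ⟨j, hji, hje⟩ := hn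
    obtain ⟨j', hji', hje'⟩ := hn'
    rcases lt_trichotomy j j' with h | h | h
    · left
      refine ⟨n, ⟨j, ?_, hje⟩, hnm⟩
      by_contra hcon
      refine hesep j j' h a b ?_ ?_ m (by rw [hje]; exact hnm) (by rw [hje']; exact hnm')
      · have := le_max_left a b
        omega
      · have := le_max_right a b
        omega
    · right
      subst h
      refine ⟨by rw [← hji, ← hji'], n, hn0, ⟨m, hnm, ?_⟩, hnm⟩
      rw [← hje, hje']
      exact hnm'
    · left
      refine ⟨n, ⟨j, ?_, hje⟩, hnm⟩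
      by_contra hcon
      refine hesep j' j h b a ?_ ?_ m (by rw [hje']; exact hnm') (by rw [hje]; exact hnm)
      · have := le_max_right a b
        omega
      · have := le_max_left a b
        omega
  have hfinexc : ∀ a b, (img (wd a) {n | ∃ j, j < max a b ∧ e j = n}).Finite := by
    intro a b
    refine img_finite hwd a ?_
    refine ((Set.finite_Iio (max a b)).image e).subset ?_
    rintro _ ⟨j, hj, rfl⟩
    exact ⟨j, hj, rfl⟩
  refine ⟨D, hDinf, fun i => (hDE i).trans (hE1 i), fun i a => ?_, fun i i' a b => ?_⟩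
  · rcases hE4 i a a with h | h
    · exact Or.inl (h.subset fun n hn => ⟨hDE i hn.1, hn.2⟩)
    · exact Or.inr (h.subset fun n hn => ⟨hDE i hn.1, hn.2⟩)
  · by_cases hii : i = i'
    · subst hii
      rcases hE4 i a b with h | h
      · right
        constructor
        · refine (img_finite hwd a h).subset ?_
          rintro m ⟨⟨n, hn, hnm⟩, hm'⟩
          refine ⟨n, ⟨hDE i hn, fun hab => ?_⟩, hnm⟩
          obtain ⟨m', h1, h2⟩ := hab
          rw [← chain_fun (hwd a) hnm h1] at h2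
          exact hm' ⟨n, hn, h2⟩
        · refine (img_finite hwd b h).subset ?_
          rintro m ⟨⟨n, hn, hnm⟩, hm'⟩
          refine ⟨n, ⟨hDE i hn, fun hab => ?_⟩, hnm⟩
          obtain ⟨m', h1, h2⟩ := hab
          rw [← chain_fun (hwd b) hnm h2] at h1
          exact hm' ⟨n, hn, h1⟩
      · left
        refine ((hfinexc a b).union (img_finite hwd a h)).subset ?_
        rintro m ⟨h1, h2⟩
        rcases hexc i i a b m h1 h2 with h3 | ⟨-, n, hn, hn', hnm⟩
        · exact Or.inl h3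
        · exact Or.inr ⟨n, ⟨hDE i hn, hn'⟩, hnm⟩
    · left
      refine (hfinexc a b).subset ?_
      rintro m ⟨h1, h2⟩
      rcases hexc i i' a b m h1 h2 with h3 | ⟨h3, -⟩
      · exact h3
      · exact absurd h3 hii

end

/-- Almost disjoint families can be made disjoint. -/
theorem disjointify (V : Set ℕ) (Z : ℕ → Set ℕ) (hZ : ∀ c ∈ V, (Z c).Infinite)
    (hdis : ∀ c ∈ V, ∀ c' ∈ V, (Z c ∩ Z c').Finite ∨ AE (Z c) (Z c')) :
    ∃ (own : ℕ → ℕ) (N : Set ℕ), (∀ k ∈ N, {n | own n = k}.Infinite) ∧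
      ∀ c ∈ V, ∃ k ∈ N, AE {n | own n = k} (Z c) := by
  classical
  obtain ⟨W, hW⟩ : ∃ W : Set ℕ, W = {c | c ∈ V ∧ ∀ c' ∈ V, c' < c → (Z c' ∩ Z c).Finite} :=
    ⟨_, rfl⟩
  have hWV : ∀ c ∈ W, c ∈ V := fun c hc => by rw [hW] at hc; exact hc.1
  let own : ℕ → ℕ := fun n => if h : ∃ c, c ∈ W ∧ n ∈ Z c then Nat.find h + 1 else 0
  have hown : ∀ c ∈ W, AE {n | own n = c + 1} (Z c) := by
    intro c hc
    constructor
    · refine Set.finite_empty.subset ?_
      rintro n ⟨hn, hn'⟩
      exfalso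
      apply hn'
      have h1 : own n = c + 1 := hn
      simp only [own] at h1
      split_ifs at h1 with h
      have h2 : Nat.find h = c := by omega
      have h3 := (Nat.find_spec h).2
      rw [h2] at h3
      exact h3
    · have hfin : (⋃ c' ∈ Finset.range c, {n | c' ∈ W ∧ n ∈ Z c' ∧ n ∈ Z c}).Finite := by
        refine (Finset.range c).finite_toSet.biUnion fun c' hc' => ?_
        by_cases h : c' ∈ W
        · rw [hW] at hc
          refine (hc.2 c' (hWV c' h) (Finset.mem_range.1 hc')).subset ?_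
          rintro n ⟨-, h1, h2⟩
          exact ⟨h1, h2⟩
        · refine Set.finite_empty.subset ?_
          rintro n ⟨h1, -⟩
          exact absurd h1 h
      refine hfin.subset ?_
      rintro n ⟨hn, hn'⟩
      have hex : ∃ c, c ∈ W ∧ n ∈ Z c := ⟨c, hc, hn⟩
      have h1 : own n = Nat.find hex + 1 := by
        simp only [own]
        rw [dif_pos hex]
      have h2 : Nat.find hex ≠ c := by
        intro h3
        apply hn'
        show own n = c + 1
        rw [h1, h3]
      have h3 : Nat.find hex ≤ c := Nat.find_min' hex ⟨hc, hn⟩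
      have h4 := Nat.find_spec hex
      simp only [Set.mem_iUnion]
      exact ⟨Nat.find hex, Finset.mem_range.2 (by omega), h4.1, h4.2, hn⟩
  refine ⟨own, {k | ∃ c ∈ W, k = c + 1}, ?_, fun c hc => ?_⟩
  · rintro _ ⟨c, hc, rfl⟩
    exact (hown c hc).symm.infinite (hZ c (hWV c hc))
  · have hex : ∃ c', c' ∈ V ∧ AE (Z c') (Z c) := ⟨c, hc, AE.refl _⟩
    have h1 := Nat.find_spec hex
    have h2 : Nat.find hex ∈ W := by
      rw [hW]
      refine ⟨h1.1, fun c' hc' hlt => ?_⟩
      rcases hdis c' hc' _ h1.1 with h3 | h3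
      · exact h3
      · exact absurd ⟨hc', h3.trans h1.2⟩ (Nat.find_min hex hlt)
    exact ⟨_, ⟨_, h2, rfl⟩, (hown _ h2).trans h1.2⟩

end Pool.Agent.Work.RamseyAD
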