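import Pool.Agent.Work.MP_f36782_h4.AlmostDisjoint

set_option autoImplicit false

/-!
If some composition of the partial maps `b⁻¹ ∘ a` is finite then all monotone sets are Ramsey.
-/

namespace Pool.Agent.Work.RamseyAD

/-- the complement, for games in Cantor space -/
theorem det_chi_compl {A : Set C}
    (hdet : ∀ f : (ℕ → ℕ) → C, Continuous f → Determined (f ⁻¹' A))
    (s : Set ℕ) (f : (ℕ → ℕ) → (ℕ → ℕ)) (hf : Continuous f) (hm : ∀ z, StrictMono (f z)) :
    Determined {z | Set.range (f z) ∈ {S : Set ℕ | chi (s ∪ S) ∈ Aᶜ}} :=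
  det_compl {S : Set ℕ | chi (s ∪ S) ∈ A} (fun f hf hm => det_chi hdet s f hf hm) f hf hm

theorem exists_below (r : ℕ → ℕ) (hr : StrictMono r) (L : ℕ) :
    ∃ n₀, ∀ n, r n < L ↔ n < n₀ := by
  classical
  have hex : ∃ n, L ≤ r n := ⟨L, hr.le_apply⟩
  refine ⟨Nat.find hex, fun n => ⟨fun h => ?_, fun h => ?_⟩⟩
  · by_contra hcon
    have h1 := Nat.find_spec hex
    have h2 := hr.monotone (not_lt.1 hcon)
    omega
  · exact not_le.1 (Nat.find_min hex h)

/-- the set `x ∘ r` consists of its stem and of the rest -/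
theorem range_split (e x r : ℕ → ℕ) (L : ℕ) :
    Set.range ((fun n => if n < L then e n else e (L + x (n - L))) ∘ r) =
      e '' (Set.range r ∩ Set.Iio L) ∪
        ((fun i => e (L + i)) ∘ x) '' {i | L + i ∈ Set.range r} := by
  ext k
  constructor
  · rintro ⟨n, rfl⟩
    by_cases hn : r n < L
    · left
      refine ⟨r n, ⟨⟨n, rfl⟩, hn⟩, ?_⟩
      show e (r n) = if r n < L then _ else _
      rw [if_pos hn]
    · right
      refine ⟨r n - L, ?_, ?_⟩
      · show L + (r n - L) ∈ Set.range r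
        exact ⟨n, by omega⟩
      · show e (L + x (r n - L)) = if r n < L then _ else _
        rw [if_neg hn]
  · rintro (⟨i, ⟨⟨n, rfl⟩, hi⟩, rfl⟩ | ⟨i, ⟨n, hn⟩, rfl⟩)
    · refine ⟨n, ?_⟩
      show (if r n < L then e (r n) else _) = _
      rw [if_pos (show r n < L from hi)]
    · refine ⟨n, ?_⟩
      show (if r n < L then e (r n) else e (L + x (r n - L))) = _
      rw [if_neg (by omega), hn, Nat.add_sub_cancel_left]
      rfl

theorem pattern_infinite (r : ℕ → ℕ) (hr : StrictMono r) (L : ℕ) :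
    {i | L + i ∈ Set.range r}.Infinite := by
  refine Set.infinite_of_not_bddAbove ?_
  rintro ⟨N, hN⟩
  have h1 : N + 1 + L ≤ r (N + 1 + L) := hr.le_apply
  have h2 : r (N + 1 + L) - L ∈ {i | L + i ∈ Set.range r} := by
    show L + (r (N + 1 + L) - L) ∈ Set.range r
    exact ⟨N + 1 + L, by omega⟩
  have h3 := hN h2
  omega

/-- **Almost disjoint patterns.** -/
theorem almost_disjoint (A : Set C)
    (hdet : ∀ f : (ℕ → ℕ) → C, Continuous f → Determined (f ⁻¹' A)) (X : C) (hX : Inf X)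
    (p q : ℕ → ℕ) (hp : StrictMono p) (hq : StrictMono q) (L : ℕ)
    (hL : ∀ n k, q n = p k → q n < L)
    (hA : ∀ x : ℕ → ℕ, StrictMono x → (∀ n, X (x n) = true) → chi (Set.range (x ∘ p)) ∈ A →
      chi (Set.range (x ∘ q)) ∈ A) :
    ∃ H, Inf H ∧ Sub H X ∧
      ((∀ x, Inf x → Sub x H → x ∈ A) ∨ (∀ x, Inf x → Sub x H → x ∉ A)) := by
  classical
  by_contra hno
  push Not at hno
  obtain ⟨H1, hH1I, hH1X, hdec1⟩ := decided A X hX
  obtain ⟨H2, hH2I, hH21, hdec2⟩ := decided Aᶜ H1 hH1I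
  have hH2X : Sub H2 X := hH21.trans hH1X
  obtain ⟨n₀, hn₀⟩ := exists_below q hq L
  obtain ⟨l₀, hl₀⟩ := exists_below p hp L
  obtain ⟨K1, hK1I, hK12, hK1⟩ := stems A H2 hH2I
    (fun n u => (hdec1 n u).imp (fun h => h.sub hH21) (fun h => h.sub hH21))
    (fun K hK hKH => (hno K hK (hKH.trans hH2X)).1) n₀
  obtain ⟨K, hKI, hK1', hK2⟩ := stems Aᶜ K1 hK1I
    (fun n u => (hdec2 n u).imp (fun h => h.sub hK12) (fun h => h.sub hK12))
    (fun K hK hKH => by
      obtain ⟨x, h1, h2, h3⟩ := (hno K hK (hKH.trans (hK12.trans hH2X))).2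
      exact ⟨x, h1, h2, fun h => h h3⟩) l₀
  have hKX : Sub K X := hK1'.trans (hK12.trans hH2X)
  have hrejA : ∀ x, Inf x → Sub x K → ∀ n, cnt x n = n₀ → Rej A n x K := fun x hx hxK n hn =>
    (hK1 x hx (hxK.trans hK1') n hn).sub (hK1'.trans hK12)
  have hrejC : ∀ x, Inf x → Sub x K → ∀ n, cnt x n = l₀ → Rej Aᶜ n x K := fun x hx hxK n hn =>
    (hK2 x hx hxK n hn).sub hK1'
  have he : StrictMono (enum K) := enum_strictMono hKI
  have hh : StrictMono fun i => enum K (L + i) := fun i j hij => he (by omega)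
  let own : ℕ → ℕ := fun i => if L + i ∈ Set.range q then 0 else
    if L + i ∈ Set.range p then 1 else 2
  have hown0 : {i | own i = 0} = {i | L + i ∈ Set.range q} := by
    ext i
    simp only [own, Set.mem_ofPred_eq]
    split_ifs with h1 h2
    · exact ⟨fun _ => h1, fun _ => rfl⟩
    · exact ⟨fun h => absurd h (by decide), fun h => absurd h h1⟩
    · exact ⟨fun h => absurd h (by decide), fun h => absurd h h1⟩
  have hown1 : {i | own i = 1} = {i | L + i ∈ Set.range p} := by
    ext i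
    simp only [own, Set.mem_ofPred_eq]
    split_ifs with h1 h2
    · refine ⟨fun h => absurd h (by decide), fun h2 => ?_⟩
      obtain ⟨n, hn⟩ := h1
      obtain ⟨k, hk⟩ := h2
      have := hL n k (by rw [hn, hk])
      omega
    · exact ⟨fun _ => h2, fun _ => rfl⟩
    · exact ⟨fun h => absurd h (by decide), fun h => absurd h h2⟩
  let D : ℕ → Set (Set ℕ) := fun i =>
    if i = 0 then {S | chi (enum K '' (Set.range q ∩ Set.Iio L) ∪ S) ∈ A} else
      if i = 1 then {S | chi (enum K '' (Set.range p ∩ Set.Iio L) ∪ S) ∈ Aᶜ} else ∅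
  have hD0 : D 0 = {S | chi (enum K '' (Set.range q ∩ Set.Iio L) ∪ S) ∈ A} := rfl
  have hD1 : D 1 = {S | chi (enum K '' (Set.range p ∩ Set.Iio L) ∪ S) ∈ Aᶜ} := rfl
  have hD2 : ∀ i, D (i + 2) = ∅ := fun i => by
    simp only [D]
    rw [if_neg (by omega), if_neg (by omega)]
  obtain ⟨x, hx, hxD⟩ := force_all D
    (by
      intro i f hf hm
      rcases i with _ | _ | i
      · rw [hD0]; exact det_chi hdet _ f hf hm
      · rw [show (0 + 1 : ℕ) = 1 from rfl, hD1]; exact det_chi_compl hdet _ f hf hm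
      · rw [show i + 1 + 1 = i + 2 from rfl, hD2]
        right
        exact ⟨fun _ => 0, fun z _ => Set.notMem_empty _⟩)
    own
    (by
      intro i
      rcases i with _ | _ | i
      · left; rw [hown0]; exact pattern_infinite q hq L
      · left; rw [show (0 + 1 : ℕ) = 1 from rfl, hown1]; exact pattern_infinite p hp L
      · right; exact hD2 i)
    (fun i => enum K (L + i)) hh
    (by
      intro i g hg
      rcases i with _ | _ | i
      · obtain ⟨k, hk, hkA⟩ := leave hKI q hq L n₀ hn₀ hrejA g hg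
        exact ⟨k, hk, hkA⟩
      · obtain ⟨k, hk, hkA⟩ := leave hKI p hp L l₀ hl₀ hrejC g hg
        exact ⟨k, hk, hkA⟩
      · exact ⟨id, strictMono_id, by
          rw [show i + 1 + 1 = i + 2 from rfl, hD2]; exact Set.notMem_empty _⟩)
  have h0 := hxD 0
  have h1 := hxD 1
  rw [hown0, hD0] at h0
  rw [hown1, hD1] at h1
  have hX' : StrictMono fun n => if n < L then enum K n else enum K (L + x (n - L)) := by
    refine strictMono_nat_of_lt_succ fun n => ?_
    by_cases hn : n + 1 < L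
    · rw [if_pos (by omega), if_pos hn]
      exact he (by omega)
    · rw [if_neg hn]
      by_cases hn' : n < L
      · rw [if_pos hn']
        exact he (by omega)
      · rw [if_neg hn']
        have := hx (show n - L < n + 1 - L by omega)
        exact he (by omega)
  have h2 := hA _ hX' (fun n => by
    split_ifs
    · exact hKX _ (enum_mem hKI _)
    · exact hKX _ (enum_mem hKI _))
  rw [range_split, range_split] at h2
  apply h0
  apply h2
  by_contra h3
  exact h1 h3

/-- **Theorem, first part.** -/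
theorem finite_chain (R : Set ((ℕ → ℕ) × (ℕ → ℕ))) (hR : ∀ r ∈ R, StrictMono r.1 ∧ StrictMono r.2)
    (l : List ((ℕ → ℕ) × (ℕ → ℕ))) (hl : ∀ r ∈ l, r ∈ R)
    (hfin : {n | ∃ m, Chain l n m}.Finite) (A : Set C)
    (hdet : ∀ f : (ℕ → ℕ) → C, Continuous f → Determined (f ⁻¹' A)) (X : C) (hX : Inf X)
    (hA : ∀ r ∈ R, ∀ x : ℕ → ℕ, StrictMono x → (∀ n, X (x n) = true) →
      chi (Set.range (x ∘ r.2)) ∈ A → chi (Set.range (x ∘ r.1)) ∈ A) :
    ∃ H, Inf H ∧ Sub H X ∧
      ((∀ x, Inf x → Sub x H → x ∈ A) ∨ (∀ x, Inf x → Sub x H → x ∉ A)) := by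
  obtain ⟨p, q, hp, hq, hpq, hP⟩ := chain_patterns (fun x => chi (Set.range x) ∈ A)
    {k | X k = true} l (fun r hr => hR r (hl r hr)) (fun r hr x hx hxX => hA r (hl r hr) x hx hxX)
  obtain ⟨N, hN⟩ := hfin.bddAbove
  refine almost_disjoint A hdet X hX p q hp hq (q N + 1) (fun n k hnk => ?_) hP
  have h1 : n ≤ N := hN ⟨k, (hpq n k).1 hnk⟩
  have h2 := hq.monotone h1
  omega

end Pool.Agent.Work.RamseyAD
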